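import Pool.Agent.Q168.BC.Sing

/-!
# MP_ddcbd8_an: the approximating densities in the singular case

If the Bernoulli convolution is singular then the approximating densities tend to zero almost
everywhere.
-/

set_option autoImplicit false

namespace Pool.Agent.Results.MP_ddcbd8_an.SingularCase

open Pool.Agent.Q168.BC MeasureTheory Filter Topology

theorem result : ∀ β : ℝ, 1 < β → β < 2 → nu β ⟂ₘ (volume : Measure ℝ) →
    ∀ᵐ x ∂((volume : Measure ℝ).restrict (interval β)),
      Tendsto (fun n => dens β n x) atTop (𝓝 0) :=
  fun _ hβ _ hs => ae_restrict_of_ae (main hβ hs)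

end Pool.Agent.Results.MP_ddcbd8_an.SingularCase
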